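import Pool.Agent.Helper24.T3.Abs

/-!
Three paths of the lengths three, two and at most five, the path of length two in the middle.
-/

set_option autoImplicit false

namespace Pool.Agent.Helper24.T3

variable {J : Type*} [LinearOrder J] {a : J ≃o J}

/-- The last step, for two automorphisms `α`, `β` which move all points up. -/
private theorem end325 (α β : J ≃o J) (hα : ∀ z, z < α z)
    (h : ∀ s t, β (β t) = α (β s) → β (α t) ≤ α s) (s₀ : J) : False := by
  have key : ∀ s, α (β s) < β (α s) := by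
    intro s
    by_contra hn
    push Not at hn
    -- `p = β⁻¹ α β s`, `t = β⁻¹ p`
    obtain ⟨p, hp⟩ := β.surjective (α (β s))
    obtain ⟨t, ht⟩ := β.surjective p
    have e1 := h s t (by rw [ht, hp])
    have e2 : α s ≤ p := β.le_iff_le.mp (by order)
    -- `α t > t` gives `β α t > p`
    have e3 := β.strictMono (hα t)
    order
  obtain ⟨p, hp⟩ := β.surjective (α (β s₀))
  obtain ⟨t, ht⟩ := β.surjective p
  have e1 := h s₀ t (by rw [ht, hp])
  have e2 := key t
  have e3 : s₀ < p := β.lt_iff_lt.mp (by have := hα (β s₀); order)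
  have e4 := α.strictMono e3
  rw [ht] at e2
  order

/-- Three paths of the lengths three, two and at most five, `r ≤ 1`. -/
theorem three325 (b : J ≃o J) (hk : ∀ z, b z ≤ a z) (P : Pth a 3) (R : Pth a 2) (Q : Pth a 5)
    (A B A' B' : J ≃o J) (M : Mid b P R Q A B A' B') (z₀ : J) : False := by
  obtain ⟨mU, mV, LU, LV, RU, RV⟩ := M
  have r1 : ∀ z, a z ≤ R.h 1 (R.F 1 z) := R.st0
  have r2 : ∀ z, R.h 1 z ≤ R.F 2 z := R.stn
  have W1A : ∀ s, P.F 1 s ≤ A s := fun s => LU 0 s (by norm_num) (by rw [P.top]; exact R.hi 1 _ (by norm_num))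
  have W3B : ∀ s, P.F 3 s ≤ B s := fun s => LV 2 s (by norm_num) (by rw [P.bot]; exact R.lo 1 _ (by norm_num))
  have Z1A : ∀ t, Q.F 1 t ≤ A' t := fun t => RU 0 t (by norm_num) (by rw [Q.top]; exact R.hi 1 _ (by norm_num))
  have Z5B : ∀ t, Q.F 5 t ≤ B' t := fun t => RV 4 t (by norm_num) (by rw [Q.bot]; exact R.lo 1 _ (by norm_num))
  have gA : ∀ s, s < A s := fun s => (P.fst s).trans_le (W1A s)
  have gB : ∀ s, s < B s := fun s => (P.lst s).trans_le (W3B s)
  have gA' : ∀ s, s < A' s := fun s => (Q.fst s).trans_le (Z1A s)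
  have gB' : ∀ s, s < B' s := fun s => (Q.lst s).trans_le (Z5B s)
  -- `x` is the height `u` of the interior vertex of `R`, and `x y = a`
  obtain ⟨x, hx⟩ : ∃ x, x = R.h 1 := ⟨_, rfl⟩
  obtain ⟨y, hy⟩ : ∃ y : J ≃o J, ∀ s, x (y s) = a s :=
    ⟨a.trans x.symm, fun s => x.apply_symm_apply (a s)⟩
  have yU : ∀ s, y s ≤ R.F 1 s := by
    intro s
    have h1 := r1 s
    rw [← hy s, ← hx] at h1
    exact x.le_iff_le.mp h1
  have xV : ∀ s, x s ≤ R.F 2 s := by
    intro s
    have h1 := r2 s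
    rwa [← hx] at h1
  have aA : ∀ s, A' (y (A s)) ≤ a s := fun s =>
    ((A'.monotone (yU (A s))).trans (mU s)).trans (hk s)
  have aB : ∀ s, B' (x (B s)) ≤ a s := fun s =>
    ((B'.monotone (xV (B s))).trans (mV s)).trans (hk s)
  -- (F1)
  have F1 : ∀ t, x t < P.h 1 t := by
    intro t
    by_contra hn
    push Not at hn
    obtain ⟨s, rfl⟩ := B.surjective t
    have e1 := LV 0 s (by norm_num) (by rw [← hx]; exact hn)
    have e2 := P.st0 s
    have e3 := (P.h 1).monotone e1
    have e4 := xV (B s)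
    have e5 := gB' (R.F 2 (B s))
    have e6 := mV s
    have e7 := hk s
    order
  -- (F2)
  have F2 : ∀ t, Q.h 4 t < x t := by
    intro t
    by_contra hn
    push Not at hn
    obtain ⟨r, rfl⟩ := (R.F 1).surjective t
    obtain ⟨s, rfl⟩ := A.surjective r
    have e1 := RU 4 _ (by norm_num) (by rw [← hx]; exact hn)
    have e2 := Q.stn (R.F 1 (A s))
    have e3 := mU s
    have e4 := hk s
    have e5 := x.monotone (yU (A s))
    rw [hy] at e5
    have e6 := a.strictMono (gA s)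
    order
  have W2A : ∀ s, P.F 2 s ≤ A s := fun s => LU 1 s (by norm_num) (by rw [← hx]; exact (F1 _).le)
  have pfull : ∀ s, a s ≤ P.F 3 (P.F 2 (P.F 1 s)) := by
    intro s
    have e1 := P.st0 s
    have e2 := P.step 1 (P.F 1 s) (by norm_num)
    have e3 := P.stn (P.F 2 (P.F 1 s))
    exact e1.trans (e2.trans e3)
  -- (1)
  have s1 : ∀ r, A' (y r) ≤ B (A r) := by
    intro r
    obtain ⟨s, rfl⟩ := A.surjective r
    have e1 := aA s
    have e2 := pfull s
    have e3 := W3B (P.F 2 (P.F 1 s))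
    have e4 := B.monotone (W2A (P.F 1 s))
    have e5 := B.monotone (A.monotone (W1A s))
    order
  -- (2)
  have s2 : ∀ s, a s ≤ B (B (A s)) := by
    intro s
    rcases le_total (P.h 2 (B (A s))) (x (B (A s))) with h | h
    · have e1 := LV 1 (A s) (by norm_num) (by rw [← hx]; exact h)
      have e2 := pfull s
      have e3 := (P.F 3).monotone ((P.F 2).monotone (W1A s))
      have e4 := (P.F 3).monotone e1
      have e5 := W3B (B (A s))
      order
    · have e1 := P.stn (B (A s))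
      have e2 := W3B (B (A s))
      have e3 := s1 s
      have e4 := gA' (y s)
      have e5 := x.strictMono (e4.trans_le e3)
      rw [hy] at e5
      order
  have s2' : ∀ r, A' (y r) ≤ B (B r) := by
    intro r
    obtain ⟨s, rfl⟩ := A.surjective r
    exact (aA s).trans (s2 s)
  -- `β = x⁻¹ B' x`
  obtain ⟨β, hβ⟩ : ∃ β : J ≃o J, ∀ s, x (β s) = B' (x s) :=
    ⟨(x.trans B').trans x.symm, fun s => x.apply_symm_apply (B' (x s))⟩
  have gβ : ∀ s, s < β s := by
    intro s
    have h1 := gB' (x s)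
    rw [← hβ] at h1
    exact x.lt_iff_lt.mp h1
  have Bβ : ∀ s, β (B s) ≤ y s := by
    intro s
    have h1 := aB s
    rw [← hy s, ← hβ] at h1
    exact x.le_iff_le.mp h1
  -- (R1)
  have R1 : ∀ q, β (A' (β q)) ≤ y q := by
    intro q
    obtain ⟨s, hs⟩ := y.surjective (β q)
    rw [← hs]
    have e1 := β.monotone (s2' s)
    have e2 := Bβ (B s)
    have e3 : B s ≤ q := β.le_iff_le.mp (by rw [← hs]; exact Bβ s)
    have e4 := y.monotone e3
    order
  -- (R2)
  have R2 : ∀ q, A' (β (A' q)) ≤ x q := by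
    intro q
    obtain ⟨s, rfl⟩ := y.surjective q
    have e1 := aA s
    rw [← hy s] at e1
    have e2 := (β.monotone (s1 s)).trans (Bβ (A s))
    exact (A'.monotone e2).trans e1
  -- (3)
  have F3 : ∀ t, x t < Q.h 1 t := by
    intro t
    by_contra hn
    push Not at hn
    obtain ⟨r, rfl⟩ := (Q.F 1).surjective t
    have e1 := Q.st0 r
    rw [← hy r] at e1
    have e2 : y r ≤ Q.F 1 r := x.le_iff_le.mp (e1.trans hn)
    have e3 := Z1A r
    have e4 := A'.strictMono (gβ r)
    have e5 := gβ (A' (β r))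
    have e6 := R1 r
    order
  have Z2A : ∀ t, Q.F 2 t ≤ A' t := fun t => RU 1 t (by norm_num) (by rw [← hx]; exact (F3 _).le)
  -- (4)
  have F4 : ∀ t, Q.h 3 t < x t := by
    intro t
    by_contra hn
    push Not at hn
    have e1 := RU 3 t (by norm_num) (by rw [← hx]; exact hn)
    have e2 := Q.step 3 t (by norm_num)
    have e3 := Q.stn (Q.F 4 t)
    have e4 := Z5B (Q.F 4 t)
    have e5 := B'.monotone e1
    obtain ⟨p, rfl⟩ := β.surjective t
    have e6 := hβ p
    have e7 : x p ≤ A' (β p) := B'.le_iff_le.mp (by rw [← e6]; order)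
    have e8 := A'.strictMono (β.strictMono (gA' p))
    have e9 := R2 p
    order
  have Z3B : ∀ t, Q.F 3 t ≤ B' t := fun t => RV 2 t (by norm_num) (by rw [← hx]; exact (F4 _).le)
  have Z4B : ∀ t, Q.F 4 t ≤ B' t := fun t => RV 3 t (by norm_num) (by rw [← hx]; exact (F2 _).le)
  -- (5)
  have key : ∀ s w, x w = A' (A' s) → y s ≤ β (β (β w)) := by
    intro s w hw
    have e1 := Q.st0 s
    have e2 := Q.step 1 (Q.F 1 s) (by norm_num)
    have e3 := Q.step 2 (Q.F 2 (Q.F 1 s)) (by norm_num)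
    have e4 := Q.step 3 (Q.F 3 (Q.F 2 (Q.F 1 s))) (by norm_num)
    have e5 := Q.stn (Q.F 4 (Q.F 3 (Q.F 2 (Q.F 1 s))))
    have f1 : Q.F 2 (Q.F 1 s) ≤ x w := by
      rw [hw]
      exact (Z2A _).trans (A'.monotone (Z1A s))
    have f2 : Q.F 3 (Q.F 2 (Q.F 1 s)) ≤ x (β w) := by
      rw [hβ]
      exact (Z3B _).trans (B'.monotone f1)
    have f3 : Q.F 4 (Q.F 3 (Q.F 2 (Q.F 1 s))) ≤ x (β (β w)) := by
      rw [hβ]
      exact (Z4B _).trans (B'.monotone f2)
    have f4 : Q.F 5 (Q.F 4 (Q.F 3 (Q.F 2 (Q.F 1 s)))) ≤ x (β (β (β w))) := by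
      rw [hβ]
      exact (Z5B _).trans (B'.monotone f3)
    have f5 : x (y s) ≤ x (β (β (β w))) := by
      rw [hy]
      exact e1.trans (e2.trans (e3.trans (e4.trans (e5.trans f4))))
    exact x.le_iff_le.mp f5
  refine end325 A' β gA' (fun s t hst => ?_) z₀
  obtain ⟨w, hw⟩ := x.surjective (A' (A' s))
  have e1 := key s w hw
  have e2 := R1 s
  have e3 : A' (β s) ≤ β (β w) := β.le_iff_le.mp (e2.trans e1)
  rw [← hst] at e3
  have e4 : t ≤ w := β.le_iff_le.mp (β.le_iff_le.mp e3)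
  have e5 := x.monotone e4
  rw [hw] at e5
  have e6 := R2 t
  exact A'.le_iff_le.mp (e6.trans e5)

end Pool.Agent.Helper24.T3
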