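import Pool.Agent.Helper24.T3.Abs

/-!
Two paths of the lengths three and five.
-/

set_option autoImplicit false

namespace Pool.Agent.Helper24.T3

variable {J : Type*} [LinearOrder J] {a : J ≃o J}

/-- A path of length three and a path of length five; `c₁`, `c₂` bound the products of the flows
of two edges which meet a common height. -/
structure C35 (P : Pth a 3) (Q : Pth a 5) (c₁ c₂ : J ≃o J) : Prop where
  hc : ∀ z, c₂ (c₁ z) ≤ a z
  mono : ∀ z, P.h 2 z ≤ P.h 1 z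
  cut₁ : ∀ j i s, j < 2 → i < 5 → P.h (j + 1) (P.F (j + 1) s) ≤ Q.h i (P.F (j + 1) s) →
    Q.h (i + 1) (P.F (j + 1) s) ≤ P.h j (P.F (j + 1) s) → Q.F (i + 1) (P.F (j + 1) s) ≤ c₁ s
  cut₂ : ∀ j i s, 0 < j → j < 3 → i < 5 → P.h (j + 1) (P.F (j + 1) s) ≤ Q.h i (P.F (j + 1) s) →
    Q.h (i + 1) (P.F (j + 1) s) ≤ P.h j (P.F (j + 1) s) → Q.F (i + 1) (P.F (j + 1) s) ≤ c₂ s

namespace C35

variable {P : Pth a 3} {Q : Pth a 5} {c₁ c₂ : J ≃o J} (S : C35 P Q c₁ c₂)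
include S

-- simple facts on the paths
omit S in
lemma p1 (z : J) : a z ≤ P.h 1 (P.F 1 z) := P.st0 z
omit S in
lemma p2 (z : J) : P.h 1 z ≤ P.h 2 (P.F 2 z) := P.step 1 z (by norm_num)
omit S in
lemma p3 (z : J) : P.h 2 z ≤ P.F 3 z := P.stn z
omit S in
lemma q1 (z : J) : a z ≤ Q.h 1 (Q.F 1 z) := Q.st0 z
omit S in
lemma q2 (z : J) : Q.h 1 z ≤ Q.h 2 (Q.F 2 z) := Q.step 1 z (by norm_num)
omit S in
lemma q3 (z : J) : Q.h 2 z ≤ Q.h 3 (Q.F 3 z) := Q.step 2 z (by norm_num)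
omit S in
lemma q4 (z : J) : Q.h 3 z ≤ Q.h 4 (Q.F 4 z) := Q.step 3 z (by norm_num)
omit S in
lemma q5 (z : J) : Q.h 4 z ≤ Q.F 5 z := Q.stn z
omit S in
lemma pf1 (z : J) : z < P.F 1 z := P.fst z
omit S in
lemma pf3 (z : J) : z < P.F 3 z := P.lst z
omit S in
lemma qf1 (z : J) : z < Q.F 1 z := Q.fst z
omit S in
lemma qf5 (z : J) : z < Q.F 5 z := Q.lst z

-- cuts which always hold
lemma cut11 (s : J) : Q.F 1 (P.F 1 s) ≤ c₁ s :=
  S.cut₁ 0 0 s (by norm_num) (by norm_num) (by rw [Q.top]; exact P.hi 1 _ (by norm_num))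
    (by rw [P.top]; exact Q.hi 1 _ (by norm_num))

lemma cut35 (s : J) : Q.F 5 (P.F 3 s) ≤ c₂ s :=
  S.cut₂ 2 4 s (by norm_num) (by norm_num) (by norm_num)
    (by rw [P.bot]; exact Q.lo 4 _ (by norm_num))
    (by rw [Q.bot]; exact P.lo 2 _ (by norm_num))

lemma W1c (s : J) : P.F 1 s < c₁ s := (qf1 _).trans_le (S.cut11 s)
lemma W3c (s : J) : P.F 3 s < c₂ s := (qf5 _).trans_le (S.cut35 s)
lemma Z1c (s : J) : Q.F 1 s < c₁ s := by
  have h1 := (Q.F 1).strictMono (pf1 (P := P) s)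
  exact h1.trans_le (S.cut11 s)
lemma Z5c (s : J) : Q.F 5 s < c₂ s := by
  have h1 := (Q.F 5).strictMono (pf3 (P := P) s)
  exact h1.trans_le (S.cut35 s)

/-- (1) -/
lemma s1a (t : J) : Q.h 3 t < P.h 1 t := by
  by_contra hn
  push Not at hn
  obtain ⟨s, rfl⟩ := (P.F 1).surjective t
  have e1 := p1 (P := P) s
  have e2 := q4 (Q := Q) (P.F 1 s)
  have e3 := q5 (Q := Q) (Q.F 4 (P.F 1 s))
  have e4 := S.cut₁ 0 3 s (by norm_num) (by norm_num) hn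
    (by rw [P.top]; exact Q.hi 4 _ (by norm_num))
  have e5 := (Q.F 5).monotone e4
  have e6 := S.Z5c (c₁ s)
  have e7 := S.hc s
  order

lemma s1b (t : J) : Q.h 4 t < P.h 2 t := by
  by_contra hn
  push Not at hn
  obtain ⟨r, rfl⟩ := (P.F 2).surjective t
  obtain ⟨s, rfl⟩ := (P.F 1).surjective r
  have e1 := p1 (P := P) s
  have e2 := p2 (P := P) (P.F 1 s)
  have e3 := q5 (Q := Q) (P.F 2 (P.F 1 s))
  have e4 := S.cut₂ 1 4 (P.F 1 s) (by norm_num) (by norm_num) (by norm_num) hn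
    (by rw [Q.bot]; exact P.lo 1 _ (by norm_num))
  have e5 := c₂.strictMono (S.W1c s)
  have e7 := S.hc s
  order

lemma s1c (t : J) : P.h 2 t < Q.h 1 t := by
  by_contra hn
  push Not at hn
  obtain ⟨s, rfl⟩ := (Q.F 1).surjective t
  have e1 := q1 (Q := Q) s
  have e3 := p3 (P := P) (Q.F 1 s)
  have e4 := S.W3c (Q.F 1 s)
  have e5 := c₂.strictMono (S.Z1c s)
  have e7 := S.hc s
  order

lemma s1d (t : J) : Q.h 4 t < Q.h 1 t := by
  by_contra hn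
  push Not at hn
  obtain ⟨s, rfl⟩ := (Q.F 1).surjective t
  have e1 := q1 (Q := Q) s
  have e3 := q5 (Q := Q) (Q.F 1 s)
  have e4 := S.Z5c (Q.F 1 s)
  have e5 := c₂.strictMono (S.Z1c s)
  have e7 := S.hc s
  order

/-- (2) -/
lemma s2a (t : J) : Q.F 1 t < P.F 2 t := by
  obtain ⟨s, rfl⟩ := (P.F 1).surjective t
  have e1 := p1 (P := P) s
  have e2 := p2 (P := P) (P.F 1 s)
  have e3 := p3 (P := P) (P.F 2 (P.F 1 s))
  have e4 := S.cut35 (Q.F 1 (P.F 1 s))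
  have e5 := c₂.monotone (S.cut11 s)
  have e6 := qf5 (Q := Q) (P.F 3 (Q.F 1 (P.F 1 s)))
  have e7 := S.hc s
  have e8 : P.F 3 (Q.F 1 (P.F 1 s)) < P.F 3 (P.F 2 (P.F 1 s)) := by order
  exact (P.F 3).lt_iff_lt.mp e8

lemma s2b (t : J) : c₂ (Q.F 1 t) ≤ P.F 3 (P.F 2 t) := by
  obtain ⟨s, rfl⟩ := (P.F 1).surjective t
  have e1 := p1 (P := P) s
  have e2 := p2 (P := P) (P.F 1 s)
  have e3 := p3 (P := P) (P.F 2 (P.F 1 s))
  have e5 := c₂.monotone (S.cut11 s)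
  have e7 := S.hc s
  order

lemma s2c (t : J) : c₂ t < P.F 3 (P.F 2 t) := (c₂.strictMono (qf1 _)).trans_le (S.s2b t)

/-- An edge of `P` which meets the edge `4` of `Q`. -/
lemma Z4c (t : J) : Q.F 4 t < c₂ t := by
  rcases le_total (P.h 2 t) (Q.h 3 t) with h | h
  · obtain ⟨s, rfl⟩ := (P.F 2).surjective t
    have e1 := S.cut₂ 1 3 s (by norm_num) (by norm_num) (by norm_num) h
      ((S.s1b _).le.trans (S.mono _))
    have e2 : s < P.F 2 s := (qf1 _).trans (S.s2a s)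
    exact e1.trans_lt (c₂.strictMono e2)
  · obtain ⟨s, rfl⟩ := (P.F 3).surjective t
    have e1 := S.cut₂ 2 3 s (by norm_num) (by norm_num) (by norm_num)
      (by rw [P.bot]; exact Q.lo 3 _ (by norm_num)) (S.s1b _).le
    exact e1.trans_lt (c₂.strictMono (pf3 s))

/-- An edge of `Q` which meets the edge `2` of `P`. -/
lemma W2c₁ (s : J) : P.F 2 s < c₁ s := by
  have key : ∀ i, i < 5 → P.h 2 (P.F 2 s) ≤ Q.h i (P.F 2 s) → Q.h (i + 1) (P.F 2 s) ≤ P.h 1 (P.F 2 s) →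
      P.F 2 s < Q.F (i + 1) (P.F 2 s) → P.F 2 s < c₁ s := fun i hi h1 h2 h3 =>
    h3.trans_le (S.cut₁ 1 i s (by norm_num) hi h1 h2)
  set t := P.F 2 s with ht
  have m1 := S.mono t
  by_cases h1 : Q.h 1 t ≤ P.h 1 t
  · refine key 0 (by norm_num) ?_ h1 (qf1 t)
    rw [Q.top]; exact P.hi 2 _ (by norm_num)
  · by_cases h2 : Q.h 2 t ≤ P.h 1 t
    · exact key 1 (by norm_num) (by order) h2 (Q.str 1 t (by norm_num) (by order))
    · exact key 2 (by norm_num) (by order) (S.s1a t).le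
        (Q.str 2 t (by norm_num) (by have := S.s1a t; order))

lemma W2c₂ (s : J) : P.F 2 s < c₂ s := by
  have key : ∀ i, i < 5 → P.h 2 (P.F 2 s) ≤ Q.h i (P.F 2 s) → Q.h (i + 1) (P.F 2 s) ≤ P.h 1 (P.F 2 s) →
      P.F 2 s < Q.F (i + 1) (P.F 2 s) → P.F 2 s < c₂ s := fun i hi h1 h2 h3 =>
    h3.trans_le (S.cut₂ 1 i s (by norm_num) (by norm_num) hi h1 h2)
  set t := P.F 2 s with ht
  have m1 := S.mono t
  by_cases h1 : Q.h 1 t ≤ P.h 1 t
  · refine key 0 (by norm_num) ?_ h1 (qf1 t)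
    rw [Q.top]; exact P.hi 2 _ (by norm_num)
  · by_cases h2 : Q.h 2 t ≤ P.h 1 t
    · exact key 1 (by norm_num) (by order) h2 (Q.str 1 t (by norm_num) (by order))
    · exact key 2 (by norm_num) (by order) (S.s1a t).le
        (Q.str 2 t (by norm_num) (by have := S.s1a t; order))

/-- (3) -/
lemma s3 (t : J) : Q.h 3 t < Q.h 1 t := by
  by_contra hn
  push Not at hn
  obtain ⟨s, rfl⟩ := (Q.F 1).surjective t
  have e1 := q1 (Q := Q) s
  have e2 := q4 (Q := Q) (Q.F 1 s)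
  have e3 := q5 (Q := Q) (Q.F 4 (Q.F 1 s))
  have e4 := (Q.F 5).strictMono (S.Z4c (Q.F 1 s))
  have e5 := (Q.F 5).monotone (S.s2b s)
  have e6 := S.cut35 (P.F 2 s)
  have e7 := c₂.strictMono (S.W2c₁ s)
  have e8 := S.hc s
  order

/-- (L2) -/
lemma l2 (i : ℕ) (hi : i < 5) (t : J) (h1 : P.h 2 t ≤ Q.h i t) (h2 : Q.h (i + 1) t ≤ P.h 1 t) :
    Q.F (i + 1) t < P.F 3 t := by
  obtain ⟨s, rfl⟩ := (P.F 2).surjective t
  have e1 := S.cut₂ 1 i s (by norm_num) (by norm_num) hi h1 h2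
  exact e1.trans_lt (S.s2c s)

/-- (4) -/
lemma s4 (t : J) : Q.h 2 t < P.h 1 t := by
  by_contra hn
  push Not at hn
  obtain ⟨s, rfl⟩ := (P.F 1).surjective t
  have e1 := p1 (P := P) s
  have e2 := q3 (Q := Q) (P.F 1 s)
  have c13 := S.cut₁ 0 2 s (by norm_num) (by norm_num) hn
    (by rw [P.top]; exact Q.hi 3 _ (by norm_num))
  set t := Q.F 3 (P.F 1 s) with ht
  have e8 := S.hc s
  rcases le_or_gt (Q.h 3 t) (P.h 2 t) with h | h
  · have e3 := p3 (P := P) t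
    have e4 := (P.F 3).monotone c13
    have e5 := S.W3c (c₁ s)
    order
  · have e3 := S.l2 3 (by norm_num) t h.le ((S.s1b t).le.trans (S.mono t))
    have e4 := q4 (Q := Q) t
    have e5 := q5 (Q := Q) (Q.F 4 t)
    have e6 := S.cut35 t
    have e7 := c₂.monotone c13
    have e9 := (Q.F 5).strictMono e3
    order

/-- (5) -/
lemma s5 (t : J) : P.h 2 t < Q.h 2 t := by
  by_contra hn
  push Not at hn
  obtain ⟨s, hs⟩ := a.surjective (Q.h 2 t)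
  have e1 := p3 (P := P) t
  have e2 := S.W3c t
  have e3 := S.hc s
  have e4 : c₁ s < t := c₂.lt_iff_lt.mp (by order)
  have e5 := q1 (Q := Q) s
  have e6 := q2 (Q := Q) (Q.F 1 s)
  have e7 : t ≤ Q.F 2 (Q.F 1 s) := (Q.h 2).le_iff_le.mp (by order)
  have e8 := (Q.F 2).strictMono (S.s2a s)
  have e9 := S.cut₁ 1 1 s (by norm_num) (by norm_num) (S.s1c _).le (S.s4 _).le
  order

-- the cuts [2|2], [2|3], [3|4]
lemma c22₁ (s : J) : Q.F 2 (P.F 2 s) ≤ c₁ s :=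
  S.cut₁ 1 1 s (by norm_num) (by norm_num) (S.s1c _).le (S.s4 _).le
lemma c22₂ (s : J) : Q.F 2 (P.F 2 s) ≤ c₂ s :=
  S.cut₂ 1 1 s (by norm_num) (by norm_num) (by norm_num) (S.s1c _).le (S.s4 _).le
lemma c23₁ (s : J) : Q.F 3 (P.F 2 s) ≤ c₁ s :=
  S.cut₁ 1 2 s (by norm_num) (by norm_num) (S.s5 _).le (S.s1a _).le
lemma c23₂ (s : J) : Q.F 3 (P.F 2 s) ≤ c₂ s :=
  S.cut₂ 1 2 s (by norm_num) (by norm_num) (by norm_num) (S.s5 _).le (S.s1a _).le
lemma c34 (s : J) : Q.F 4 (P.F 3 s) ≤ c₂ s :=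
  S.cut₂ 2 3 s (by norm_num) (by norm_num) (by norm_num)
    (by rw [P.bot]; exact Q.lo 3 _ (by norm_num)) (S.s1b _).le
lemma Z2W3 (t : J) : Q.F 2 t < P.F 3 t := S.l2 1 (by norm_num) t (S.s1c _).le (S.s4 _).le
lemma Z3W3 (t : J) : Q.F 3 t < P.F 3 t := S.l2 2 (by norm_num) t (S.s5 _).le (S.s1a _).le
lemma Z43 (t : J) : Q.F 4 (Q.F 3 t) < c₂ t := ((Q.F 4).strictMono (S.Z3W3 t)).trans_le (S.c34 t)
lemma Z21 (t : J) : Q.F 2 (Q.F 1 t) < c₁ t := ((Q.F 2).strictMono (S.s2a t)).trans_le (S.c22₁ t)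

/-- (6) -/
lemma s6 (t : J) : Q.h 2 t < Q.h 1 t := by
  by_contra hn
  push Not at hn
  obtain ⟨s, rfl⟩ := (Q.F 1).surjective t
  have e1 := q1 (Q := Q) s
  have e2 := q3 (Q := Q) (Q.F 1 s)
  have e3 := q4 (Q := Q) (Q.F 3 (Q.F 1 s))
  have e4 := q5 (Q := Q) (Q.F 4 (Q.F 3 (Q.F 1 s)))
  have e5 := (Q.F 5).strictMono (S.Z43 (Q.F 1 s))
  have e6 := (Q.F 5).monotone (S.s2b s)
  have e7 := S.cut35 (P.F 2 s)
  have e8 := c₂.strictMono (S.W2c₁ s)
  have e9 := S.hc s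
  order

omit S in
lemma qfull (s : J) : a s ≤ Q.F 5 (Q.F 4 (Q.F 3 (Q.F 2 (Q.F 1 s)))) := by
  have e1 := q1 (Q := Q) s
  have e2 := q2 (Q := Q) (Q.F 1 s)
  have e3 := q3 (Q := Q) (Q.F 2 (Q.F 1 s))
  have e4 := q4 (Q := Q) (Q.F 3 (Q.F 2 (Q.F 1 s)))
  have e5 := q5 (Q := Q) (Q.F 4 (Q.F 3 (Q.F 2 (Q.F 1 s))))
  order

/-- (7) -/
lemma s7 (x : J) : P.F 3 x < Q.F 4 (Q.F 3 x) := by
  obtain ⟨y, rfl⟩ := (Q.F 2).surjective x
  obtain ⟨s, rfl⟩ := (P.F 2).surjective y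
  have e1 := qfull (Q := Q) s
  have e2 := S.cut35 (Q.F 2 (P.F 2 s))
  have e3 := c₂.monotone (S.c22₁ s)
  have e4 := S.hc s
  have e5 : P.F 3 (Q.F 2 (P.F 2 s)) ≤ Q.F 4 (Q.F 3 (Q.F 2 (Q.F 1 s))) :=
    (Q.F 5).le_iff_le.mp (by order)
  have e6 : Q.F 4 (Q.F 3 (Q.F 2 (Q.F 1 s))) < Q.F 4 (Q.F 3 (Q.F 2 (P.F 2 s))) :=
    (Q.F 4).strictMono ((Q.F 3).strictMono ((Q.F 2).strictMono (S.s2a s)))
  order

/-- The cut [1|2]. -/
lemma c12 (r : J) (h : P.h 1 r ≤ Q.h 1 r) : c₂ (Q.F 2 r) ≤ P.F 3 (P.F 2 r) := by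
  obtain ⟨s, rfl⟩ := (P.F 1).surjective r
  have e1 := S.cut₁ 0 1 s (by norm_num) (by norm_num) h
    (by rw [P.top]; exact Q.hi 2 _ (by norm_num))
  have e2 := c₂.monotone e1
  have e3 := S.hc s
  have e4 := p1 (P := P) s
  have e5 := p2 (P := P) (P.F 1 s)
  have e6 := p3 (P := P) (P.F 2 (P.F 1 s))
  order

/-- (8) -/
lemma s8 (t : J) : Q.h 3 t < P.h 2 t := by
  by_contra hn
  push Not at hn
  obtain ⟨r, rfl⟩ := (P.F 2).surjective t
  obtain ⟨s, rfl⟩ := (Q.F 1).surjective r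
  set r := Q.F 1 s with hr
  have c24 := S.cut₂ 1 3 r (by norm_num) (by norm_num) (by norm_num) hn
    ((S.s1b _).le.trans (S.mono _))
  have e0 := S.hc s
  have e1 := q1 (Q := Q) s
  rcases le_total (Q.h 1 r) (P.h 1 r) with h | h
  · have e2 := p2 (P := P) r
    have e3 := q4 (Q := Q) (P.F 2 r)
    have e4 := q5 (Q := Q) (Q.F 4 (P.F 2 r))
    have e5 := (Q.F 5).monotone c24
    have e6 := S.cut35 (c₁ s)
    have e7 : P.F 3 (c₁ s) ≤ c₂ r := (Q.F 5).le_iff_le.mp (by order)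
    have e8 := S.s2b s
    have e9 : c₁ s ≤ P.F 2 s := (P.F 3).le_iff_le.mp (by order)
    exact absurd e9 (not_le.mpr (S.W2c₁ s))
  · have e2 := S.c12 r h
    have e3 := qfull (Q := Q) s
    have e4 := (Q.F 5).strictMono (S.Z43 (Q.F 2 r))
    have e5 := (Q.F 5).monotone e2
    have e6 := S.cut35 (P.F 2 r)
    have e7 : c₁ s < P.F 2 r := c₂.lt_iff_lt.mp (by order)
    have e8 := S.s2b s
    have e9 := S.s7 (P.F 2 s)
    have e10 := (Q.F 4).monotone (S.c23₁ s)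
    have e11 : P.F 2 r < c₁ s := (Q.F 4).lt_iff_lt.mp (by order)
    order

/-- Consequence of (8). -/
lemma l9 (s : J) : c₁ s < Q.F 3 (Q.F 2 (Q.F 1 s)) := by
  have e1 := q1 (Q := Q) s
  have e2 := q2 (Q := Q) (Q.F 1 s)
  have e3 := q3 (Q := Q) (Q.F 2 (Q.F 1 s))
  have e4 := S.s8 (Q.F 3 (Q.F 2 (Q.F 1 s)))
  have e5 := p3 (P := P) (Q.F 3 (Q.F 2 (Q.F 1 s)))
  have e6 := S.W3c (Q.F 3 (Q.F 2 (Q.F 1 s)))
  have e7 := S.hc s
  exact c₂.lt_iff_lt.mp (by order)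

/-- (9) -/
lemma s9 (t : J) : Q.h 1 t < P.h 1 t := by
  by_contra hn
  push Not at hn
  obtain ⟨s, rfl⟩ := (Q.F 1).surjective t
  set r := Q.F 1 s with hr
  have e1 := S.c34 (Q.F 2 r)
  have e2 := S.c12 r hn
  have e3 := S.s7 (P.F 2 r)
  have e4 := (Q.F 4).monotone (S.c23₂ r)
  have e5 : P.F 3 (Q.F 2 r) < c₂ r := (Q.F 4).lt_iff_lt.mp (by order)
  have e6 := S.l9 s
  have e7 := S.c23₁ s
  have e8 : P.F 2 s < Q.F 2 r := (Q.F 3).lt_iff_lt.mp (by order)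
  have e9 := S.s2b s
  have e10 := (P.F 3).strictMono e8
  order

/-- (8') -/
lemma s8' (t : J) : P.h 1 t < Q.h 1 t := by
  by_contra hn
  push Not at hn
  obtain ⟨s, rfl⟩ := (Q.F 1).surjective t
  set r := Q.F 1 s with hr
  have e1 := q1 (Q := Q) s
  have e2 := p2 (P := P) r
  have e3 := p3 (P := P) (P.F 2 r)
  have e4 := S.c34 (c₁ s)
  have e5 := S.hc s
  have e6 := S.c23₂ r
  obtain ⟨x, hx⟩ := (Q.F 3).surjective (P.F 3 (c₁ s))
  have e7 : P.F 2 r < x := by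
    have f1 := S.s2b s
    have f2 := (P.F 3).strictMono (S.W2c₁ s)
    exact (Q.F 3).lt_iff_lt.mp (by order)
  have e8 := (P.F 3).strictMono e7
  have e9 := S.s7 x
  rw [hx] at e9
  order

/-- There is no such configuration. -/
theorem false (s : J) : False := lt_asymm (S.s8' s) (S.s9 s)

end C35

/-- Two paths of the lengths three and at most five, `r ≤ 1 / 2`. -/
theorem two35 (b : J ≃o J) (hk : ∀ z, b (b z) ≤ a z) (P : Pth a 3) (Q : Pth a 5)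
    (h : Cut2 b P Q) (z₀ : J) : False := by
  have h11 : ∀ s, Q.F 1 (P.F 1 s) ≤ b s := fun s =>
    h 0 0 s (by norm_num) (by norm_num) (Or.inr (Or.inl ⟨rfl, rfl⟩))
      ⟨by rw [Q.top]; exact P.hi 1 _ (by norm_num), by rw [P.top]; exact Q.hi 1 _ (by norm_num)⟩
  have h35 : ∀ s, Q.F 5 (P.F 3 s) ≤ b s := fun s =>
    h 2 4 s (by norm_num) (by norm_num) (Or.inr (Or.inr ⟨rfl, rfl⟩))
      ⟨by rw [P.bot]; exact Q.lo 4 _ (by norm_num), by rw [Q.bot]; exact P.lo 2 _ (by norm_num)⟩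
  have m2 : ∀ t, P.h 2 t ≤ P.h 1 t := by
    intro t
    by_contra hn
    push Not at hn
    obtain ⟨s, rfl⟩ := (P.F 1).surjective t
    have e1 := P.st0 s
    have e2 := P.stn (P.F 1 s)
    have e3 := (Q.lst _).trans_le (h35 (P.F 1 s))
    have e4 := b.strictMono ((Q.fst _).trans_le (h11 s))
    have e5 := hk s
    order
  have S : C35 P Q b b := ⟨hk, m2,
    fun j i s hj hi h1 h2 => h j i s (by omega) hi (Or.inl (Or.inl (P.mono3 _ (m2 _)))) ⟨h1, h2⟩,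
    fun j i s _ hj hi h1 h2 => h j i s hj hi (Or.inl (Or.inl (P.mono3 _ (m2 _)))) ⟨h1, h2⟩⟩
  exact S.false z₀

/-- Three paths of the lengths two, three and at most five, `r ≤ 1`. -/
theorem three235 (b : J ≃o J) (hk : ∀ z, b z ≤ a z) (R : Pth a 2) (P : Pth a 3) (Q : Pth a 5)
    (h : Cut3 b R P Q) (z₀ : J) : False := by
  have r1 : ∀ z, a z ≤ R.h 1 (R.F 1 z) := R.st0
  have r2 : ∀ z, R.h 1 z ≤ R.F 2 z := R.stn
  have hR : ∀ t, R.Mono t := R.mono2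
  have top3 : ∀ s, Q.F 1 (P.F 1 (R.F 1 s)) ≤ b s := fun s =>
    h 0 0 0 s (by norm_num) (by norm_num) (by norm_num) (Or.inr (Or.inl ⟨rfl, rfl, rfl⟩))
      ⟨by rw [P.top]; exact R.hi 1 _ (by norm_num), by rw [R.top]; exact P.hi 1 _ (by norm_num)⟩
      ⟨by rw [Q.top]; exact P.hi 1 _ (by norm_num), by rw [P.top]; exact Q.hi 1 _ (by norm_num)⟩
  have bot3 : ∀ s, Q.F 5 (P.F 3 (R.F 2 s)) ≤ b s := fun s =>
    h 1 2 4 s (by norm_num) (by norm_num) (by norm_num) (Or.inr (Or.inr ⟨rfl, rfl, rfl⟩))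
      ⟨by rw [R.bot]; exact P.lo 2 _ (by norm_num), by rw [P.bot]; exact R.lo 1 _ (by norm_num)⟩
      ⟨by rw [P.bot]; exact Q.lo 4 _ (by norm_num), by rw [Q.bot]; exact P.lo 2 _ (by norm_num)⟩
  have hW1 : ∀ x, P.F 1 x < R.F 2 x := by
    intro x
    obtain ⟨s, rfl⟩ := (R.F 1).surjective x
    have e1 := r1 s
    have e2 := r2 (R.F 1 s)
    have e3 := top3 s
    have e4 := Q.fst (P.F 1 (R.F 1 s))
    have e5 := hk s
    order
  have m2 : ∀ t, P.h 2 t ≤ P.h 1 t := by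
    intro t
    by_contra hn
    push Not at hn
    obtain ⟨s, rfl⟩ := (P.F 1).surjective t
    have e1 := P.st0 s
    have e2 := P.stn (P.F 1 s)
    have e3 := (P.F 3).strictMono (hW1 s)
    have e4 := Q.lst (P.F 3 (R.F 2 s))
    have e5 := bot3 s
    have e6 := hk s
    order
  have hP : ∀ t, P.Mono t := fun t => P.mono3 t (m2 t)
  -- all cuts
  have H : ∀ k j i s, k < 2 → j < 3 → i < 5 → Ov R P k j (R.F (k + 1) s) →
      Ov P Q j i (P.F (j + 1) (R.F (k + 1) s)) → Q.F (i + 1) (P.F (j + 1) (R.F (k + 1) s)) ≤ b s :=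
    fun k j i s hk hj hi h1 h2 => h k j i s hk hj hi
      (Or.inl ⟨Or.inl (hR _), Or.inl (hP _), Or.inl (hR _)⟩) h1 h2
  -- the interior vertex of `R` is higher than the last interior vertex of `P`
  have hu : ∀ x, P.h 2 x < R.h 1 x := by
    intro x
    by_contra hn
    push Not at hn
    obtain ⟨s, rfl⟩ := (R.F 1).surjective x
    have e1 := r1 s
    have e2 := P.stn (R.F 1 s)
    have e3 := H 0 2 4 s (by norm_num) (by norm_num) (by norm_num)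
      ⟨hn, by rw [R.top]; exact P.hi 3 _ (by norm_num)⟩
      ⟨by rw [P.bot]; exact Q.lo 4 _ (by norm_num), by rw [Q.bot]; exact P.lo 2 _ (by norm_num)⟩
    have e4 := Q.lst (P.F 3 (R.F 1 s))
    have e5 := hk s
    order
  have cut₂ : ∀ j i x, 0 < j → j < 3 → i < 5 →
      P.h (j + 1) (P.F (j + 1) (R.F 2 x)) ≤ Q.h i (P.F (j + 1) (R.F 2 x)) →
      Q.h (i + 1) (P.F (j + 1) (R.F 2 x)) ≤ P.h j (P.F (j + 1) (R.F 2 x)) →
      Q.F (i + 1) (P.F (j + 1) (R.F 2 x)) ≤ b x := by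
    intro j i x hj0 hj hi h1 h2
    refine H 1 j i x (by norm_num) hj hi ⟨?_, ?_⟩ ⟨h1, h2⟩
    · change R.h 2 (R.F 2 x) ≤ _
      rw [R.bot]
      exact P.lo j _ hj.le
    · obtain rfl | rfl : j = 1 ∨ j = 2 := by omega
      · exact (hu _).le
      · change P.h 3 _ ≤ _
        rw [P.bot]
        exact R.lo 1 _ (by norm_num)
  have cut₁ : ∀ j i s, j < 2 → i < 5 → P.h (j + 1) (P.F (j + 1) s) ≤ Q.h i (P.F (j + 1) s) →
      Q.h (i + 1) (P.F (j + 1) s) ≤ P.h j (P.F (j + 1) s) → Q.F (i + 1) (P.F (j + 1) s) ≤ R.F 2 s := by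
    intro j i s hj hi h1 h2
    rcases le_or_gt (R.h 1 s) (P.h j s) with hle | hlt
    · obtain ⟨x, rfl⟩ := (R.F 1).surjective s
      have e1 := H 0 j i x (by norm_num) (by omega) hi
        ⟨hle, by rw [R.top]; exact P.hi _ _ (by omega)⟩ ⟨h1, h2⟩
      have e2 := hk x
      have e3 := r1 x
      have e4 := r2 (R.F 1 x)
      order
    · obtain rfl | rfl : j = 0 ∨ j = 1 := by omega
      · rw [P.top] at hlt
        exact absurd hlt (not_lt.mpr (R.hi 1 _ (by norm_num)))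
      · obtain ⟨x, hx⟩ := (R.F 2).surjective s
        obtain ⟨y, hy⟩ := (P.F 1).surjective s
        have e1 := cut₂ 1 i x (by norm_num) (by norm_num) hi
        rw [hx] at e1
        have e2 := e1 h1 h2
        have e3 : x < y := by
          have f1 := hW1 y
          rw [hy, ← hx] at f1
          exact (R.F 2).lt_iff_lt.mp f1
        have e4 := b.strictMono e3
        have e5 := hk y
        have e6 := P.st0 y
        rw [hy] at e6
        have e7 := r2 s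
        order
  have S : C35 P Q (R.F 2) ((R.F 2).symm.trans b) := by
    refine ⟨fun z => ?_, m2, cut₁, ?_⟩
    · change b ((R.F 2).symm (R.F 2 z)) ≤ a z
      rw [OrderIso.symm_apply_apply]
      exact hk z
    · intro j i s hj0 hj hi h1 h2
      obtain ⟨x, rfl⟩ := (R.F 2).surjective s
      change _ ≤ b ((R.F 2).symm (R.F 2 x))
      rw [OrderIso.symm_apply_apply]
      exact cut₂ j i x hj0 hj hi h1 h2
  exact S.false z₀

end Pool.Agent.Helper24.T3
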