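import Mathlib

/-!
Paths from the top to the bottom, on an interval of a linear order without fixed points of `a`.

`J` is the interval (`z < a z` for all `z`), a vertex `v` has the height `h_v : J ≃o J`, the top
has the height `a` and the bottom the height `1`.  The positive part of the flow of an edge is
`F : J ≃o J`.
-/

set_option autoImplicit false

namespace Pool.Agent.Helper24.T3

variable {J : Type*} [LinearOrder J] {a : J ≃o J} {l m n : ℕ}

/-- A path with `n` edges from the top to the bottom: `h i` are the heights of its vertices,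
`F i` (`1 ≤ i ≤ n`) are the positive parts of the flows of its edges. -/
structure Pth (a : J ≃o J) (n : ℕ) where
  h : ℕ → J ≃o J
  F : ℕ → J ≃o J
  top : ∀ z, h 0 z = a z
  bot : ∀ z, h n z = z
  lo : ∀ i z, i ≤ n → z ≤ h i z
  hi : ∀ i z, i ≤ n → h i z ≤ a z
  ge : ∀ i z, z ≤ F i z
  fst : ∀ z, z < F 1 z
  lst : ∀ z, z < F n z
  step : ∀ i z, i < n → h i z ≤ h (i + 1) (F (i + 1) z)
  str : ∀ i z, i < n → h (i + 1) z < h i z → z < F (i + 1) z

/-- The edges `j + 1` of `P` and `i + 1` of `Q` meet a common height at `t`. -/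
def Ov (P : Pth a m) (Q : Pth a n) (j i : ℕ) (t : J) : Prop :=
  P.h (j + 1) t ≤ Q.h i t ∧ Q.h (i + 1) t ≤ P.h j t

/-- The heights do not increase along `P` at `t`. -/
def Pth.Mono (P : Pth a n) (t : J) : Prop := ∀ i < n, P.h (i + 1) t ≤ P.h i t

/-- The rule for the edges of two paths which meet a common height: it is stated if one of the
paths is monotone, or if both edges are first, or both edges are last. -/
def Cut2 (b : J ≃o J) (P : Pth a m) (Q : Pth a n) : Prop :=
  ∀ j i s, j < m → i < n →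
    (P.Mono (P.F (j + 1) s) ∨ Q.Mono (P.F (j + 1) s)) ∨ (j = 0 ∧ i = 0) ∨ (j + 1 = m ∧ i + 1 = n) →
    Ov P Q j i (P.F (j + 1) s) → Q.F (i + 1) (P.F (j + 1) s) ≤ b s

/-- The rule for the edges of three paths. -/
def Cut3 (b : J ≃o J) (R : Pth a l) (P : Pth a m) (Q : Pth a n) : Prop :=
  ∀ k j i s, k < l → j < m → i < n →
    ((R.Mono (R.F (k + 1) s) ∨ P.Mono (R.F (k + 1) s)) ∧
      (P.Mono (P.F (j + 1) (R.F (k + 1) s)) ∨ Q.Mono (P.F (j + 1) (R.F (k + 1) s))) ∧
      (R.Mono (R.F (k + 1) s) ∨ Q.Mono (R.F (k + 1) s))) ∨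
      (k = 0 ∧ j = 0 ∧ i = 0) ∨ (k + 1 = l ∧ j + 1 = m ∧ i + 1 = n) →
    Ov R P k j (R.F (k + 1) s) → Ov P Q j i (P.F (j + 1) (R.F (k + 1) s)) →
    Q.F (i + 1) (P.F (j + 1) (R.F (k + 1) s)) ≤ b s

/-- The rules for a path `R` of length two between `P` and `Q`: `A`, `A'` are given by the faces
on the two sides of the first edge of `R`, and `B`, `B'` by those of the second edge. -/
structure Mid (b : J ≃o J) (P : Pth a m) (R : Pth a 2) (Q : Pth a n) (A B A' B' : J ≃o J) :
    Prop where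
  mU : ∀ s, A' (R.F 1 (A s)) ≤ b s
  mV : ∀ s, B' (R.F 2 (B s)) ≤ b s
  LU : ∀ j s, j < m → R.h 1 (A s) ≤ P.h j (A s) → P.F (j + 1) s ≤ A s
  LV : ∀ j s, j < m → P.h (j + 1) (B s) ≤ R.h 1 (B s) → P.F (j + 1) s ≤ B s
  RU : ∀ i t, i < n → R.h 1 t ≤ Q.h i t → Q.F (i + 1) t ≤ A' t
  RV : ∀ i t, i < n → Q.h (i + 1) t ≤ R.h 1 t → Q.F (i + 1) t ≤ B' t

namespace Pth

lemma mono2 (R : Pth a 2) (t : J) : R.Mono t := by
  intro i hi
  interval_cases i
  · rw [R.top]
    exact R.hi 1 _ (by norm_num)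
  · change R.h 2 t ≤ R.h 1 t
    rw [R.bot]
    exact R.lo 1 _ (by norm_num)

lemma mono3 (P : Pth a 3) (t : J) (h : P.h 2 t ≤ P.h 1 t) : P.Mono t := by
  intro i hi
  interval_cases i
  · rw [P.top]
    exact P.hi 1 _ (by norm_num)
  · exact h
  · change P.h 3 t ≤ P.h 2 t
    rw [P.bot]
    exact P.lo 2 _ (by norm_num)

-- the edges of short paths
lemma st0 (P : Pth a (n + 1)) (z : J) : a z ≤ P.h 1 (P.F 1 z) := by
  have := P.step 0 z n.succ_pos
  rwa [P.top] at this

lemma stn (P : Pth a (n + 1)) (z : J) : P.h n z ≤ P.F (n + 1) z := by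
  have := P.step n z n.lt_succ_self
  rwa [P.bot] at this

end Pth

end Pool.Agent.Helper24.T3
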